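import Pool.Agent.W567.IV.Stm

/-! IV-GEN: generic perturbations are algebraically independent. -/

set_option autoImplicit false

namespace Pool.Agent.W40.IV

open Pool.Agent.W567.IV

theorem am (L : Type) [Field L] [Algebra ℂ L] (c : ℂ) :
    (algebraMap ℂ (LaurentSeries L)) c = HahnSeries.C (algebraMap ℂ L c) := by
  rw [HahnSeries.algebraMap_apply', PowerSeries.algebraMap_apply, HahnSeries.ofPowerSeries_C]

theorem aux {ι : Type} (L : Type) [Field L] [Algebra (MvPolynomial ι ℂ) L]
    [IsFractionRing (MvPolynomial ι ℂ) L] [Algebra ℂ L] [IsScalarTower ℂ (MvPolynomial ι ℂ) L]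
    (P : ι → Polynomial ℂ) (N : ℕ) :
    AlgebraicIndependent ℂ (fun i => Polynomial.aeval (HahnSeries.single (1 : ℤ) (1 : L)) (P i) +
          (HahnSeries.single (1 : ℤ) (1 : L)) ^ N *
            HahnSeries.C (algebraMap (MvPolynomial ι ℂ) L (MvPolynomial.X i)) :
              ι → LaurentSeries L) := by
  classical
  rw [algebraicIndependent_iff]
  intro G hG
  let ψ : Polynomial (MvPolynomial ι ℂ) →+* LaurentSeries L :=
    (HahnSeries.ofPowerSeries ℤ L).comp
      ((Polynomial.coeToPowerSeries.ringHom (R := L)).comp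
        (Polynomial.mapRingHom (algebraMap (MvPolynomial ι ℂ) L)))
  have hψX : ψ Polynomial.X = HahnSeries.single (1 : ℤ) (1 : L) := by
    simp [ψ, HahnSeries.ofPowerSeries_X]
  have hψC : ∀ r : MvPolynomial ι ℂ, ψ (Polynomial.C r) =
      HahnSeries.C (algebraMap (MvPolynomial ι ℂ) L r) := by
    intro r
    simp [ψ, HahnSeries.ofPowerSeries_C]
  have hψinj : Function.Injective ψ := by
    intro x y hxy
    have h1 := HahnSeries.ofPowerSeries_injective hxy
    simp only [RingHom.comp_apply, Polynomial.coe_mapRingHom,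
      Polynomial.coeToPowerSeries.ringHom_apply] at h1
    have h2 : Polynomial.map (algebraMap (MvPolynomial ι ℂ) L) x =
        Polynomial.map (algebraMap (MvPolynomial ι ℂ) L) y := Polynomial.coe_injective _ h1
    exact Polynomial.map_injective _ (IsFractionRing.injective (MvPolynomial ι ℂ) L) h2
  let h : MvPolynomial ι ℂ →ₐ[ℂ] Polynomial (MvPolynomial ι ℂ) :=
    MvPolynomial.aeval (fun i => (P i).map (MvPolynomial.C : ℂ →+* MvPolynomial ι ℂ) +
      Polynomial.X ^ N * Polynomial.C (MvPolynomial.X i))
  have hh : ∀ i, h (MvPolynomial.X i) = (P i).map (MvPolynomial.C : ℂ →+* MvPolynomial ι ℂ) +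
      Polynomial.X ^ N * Polynomial.C (MvPolynomial.X i) := by
    intro i; simp [h]
  have hhC : ∀ c, h (MvPolynomial.C c) = Polynomial.C (MvPolynomial.C c) := by
    intro c
    simp [h]
  have hCL : ∀ c : ℂ, algebraMap (MvPolynomial ι ℂ) L (MvPolynomial.C c) = algebraMap ℂ L c := by
    intro c
    rw [← MvPolynomial.algebraMap_eq, ← IsScalarTower.algebraMap_apply ℂ (MvPolynomial ι ℂ) L]
  have hP : ∀ p : Polynomial ℂ, ψ (p.map (MvPolynomial.C : ℂ →+* MvPolynomial ι ℂ)) =
      Polynomial.aeval (HahnSeries.single (1 : ℤ) (1 : L) : LaurentSeries L) p := by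
    intro p
    have : (ψ.comp (Polynomial.mapRingHom (MvPolynomial.C : ℂ →+* MvPolynomial ι ℂ))) =
        (Polynomial.aeval (HahnSeries.single (1 : ℤ) (1 : L) : LaurentSeries L) :
          Polynomial ℂ →ₐ[ℂ] LaurentSeries L).toRingHom := by
      apply Polynomial.ringHom_ext
      · intro c
        simp only [RingHom.comp_apply, Polynomial.coe_mapRingHom, Polynomial.map_C, hψC]
        simp only [AlgHom.toRingHom_eq_coe, RingHom.coe_coe, Polynomial.aeval_C]
        rw [am, hCL]
      · simp [hψX]
    exact congrArg (fun f => f p) this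
  have hcomp : ∀ g : MvPolynomial ι ℂ, ψ (h g) =
      MvPolynomial.aeval (fun i => Polynomial.aeval (HahnSeries.single (1 : ℤ) (1 : L)) (P i) +
          (HahnSeries.single (1 : ℤ) (1 : L)) ^ N *
            HahnSeries.C (algebraMap (MvPolynomial ι ℂ) L (MvPolynomial.X i))
            : ι → LaurentSeries L) g := by
    intro g
    have : (ψ.comp h.toRingHom) =
        (MvPolynomial.aeval (fun i => Polynomial.aeval (HahnSeries.single (1 : ℤ) (1 : L)) (P i) +
          (HahnSeries.single (1 : ℤ) (1 : L)) ^ N *
            HahnSeries.C (algebraMap (MvPolynomial ι ℂ) L (MvPolynomial.X i))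
            : ι → LaurentSeries L)).toRingHom := by
      apply MvPolynomial.ringHom_ext
      · intro c
        simp only [RingHom.comp_apply, AlgHom.toRingHom_eq_coe, RingHom.coe_coe, hhC, hψC]
        rw [MvPolynomial.aeval_C, am, hCL]
      · intro i
        simp only [RingHom.comp_apply, AlgHom.toRingHom_eq_coe, RingHom.coe_coe,
          MvPolynomial.aeval_X, hh, map_add, map_mul, map_pow, hP, hψX, hψC]
    exact congrArg (fun f => f g) this
  have h0 : h G = 0 := by
    apply hψinj
    rw [hcomp, map_zero]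
    exact hG
  let e : Polynomial (MvPolynomial ι ℂ) →+* MvPolynomial ι ℂ := Polynomial.evalRingHom 1
  let τ : MvPolynomial ι ℂ →ₐ[ℂ] MvPolynomial ι ℂ :=
    MvPolynomial.aeval (fun i => MvPolynomial.X i - MvPolynomial.C ((P i).eval 1))
  have hfin : ∀ g : MvPolynomial ι ℂ, τ (e (h g)) = g := by
    intro g
    have : ((τ.toRingHom.comp e).comp h.toRingHom) = RingHom.id (MvPolynomial ι ℂ) := by
      apply MvPolynomial.ringHom_ext
      · intro c
        simp only [RingHom.comp_apply, AlgHom.toRingHom_eq_coe, RingHom.coe_coe, hhC,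
          RingHom.id_apply]
        simp [e, τ, MvPolynomial.algebraMap_eq]
      · intro i
        simp only [RingHom.comp_apply, AlgHom.toRingHom_eq_coe, RingHom.coe_coe, hh,
          RingHom.id_apply]
        have e2 : Polynomial.eval (1 : MvPolynomial ι ℂ)
            ((P i).map (MvPolynomial.C : ℂ →+* MvPolynomial ι ℂ)) =
            MvPolynomial.C ((P i).eval 1) := by
          have h1 : (1 : MvPolynomial ι ℂ) = MvPolynomial.C 1 := by simp
          rw [h1, Polynomial.eval_map, Polynomial.eval₂_at_apply]
        simp [e, τ, MvPolynomial.algebraMap_eq, e2]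
    exact congrArg (fun f => f g) this
  have := hfin G
  rw [h0, map_zero, map_zero] at this
  exact this.symm

theorem gen_ : S_gen := by
  intro ι _
  exact ⟨FractionRing (MvPolynomial ι ℂ), inferInstance, inferInstance,
    fun i => algebraMap (MvPolynomial ι ℂ) _ (MvPolynomial.X i), fun P N => aux _ P N⟩

end Pool.Agent.W40.IV
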